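import Pool.Agent.Lib_MP_40e650.Assembly2

/-!
Invariant subspaces of weighted composition operators over automorphisms of positive entropy.

Let `τ` be an invertible measure preserving transformation of a probability space `(X, μ)` with
positive Kolmogorov-Sinai entropy `h(τ)`, and let `φ` be a bounded measurable complex function with
`log (1 + |log |φ||)` integrable over `{φ ≠ 0}`. On `L²(X, μ)` let `(T f)(x) = φ(x) f(τ x)`, that is
`T = M_φ U_τ`, and `(M_ψ f)(x) = ψ(x) f(x)`.

(1) For every finite measurable partition `R` there is a closed subspace `M ≠ 0, L²(X, μ)` which is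
invariant under `T` and under all `M_ψ`, `ψ` measurable with respect to `R`.

(2) If `H(R) < h(τ)` and the zero set of `φ` is a union of atoms of `R` up to a null set (so if `φ`
has no zeros and `R` is trivial) then there is a bounded idempotent `P ≠ 0, 1` which commutes with
`T` and with all these `M_ψ`.

By a theorem of Vershik (in the list of what is known in the problem file, and not formalised here)
the family consisting of `U_τ` and all `M_ψ`, `ψ ∈ L^∞`, is approximable, so that `T`, and for
example `M_ψ + T`, are approximable operators.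

Idea of the proof. Write `φ = exp(f) exp(-D)` on `{φ ≠ 0}` with `f` bounded and `D` integer valued
of small entropy. By markers of bounded gaps at the scales `2, 4, 8, ...` and by rounding the sums
of `f` over the blocks of one scale with an error which is small with respect to the next scale one
finds a bounded function `u` such that `f - u ∘ τ + u` is a sum of finite-valued functions of small
total entropy. So `T` is similar, by the multiplication by `exp(u)`, to a weighted composition
operator whose weight generates a proper factor (a proper one-sided σ-algebra when joined with an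
arbitrary finite partition).
-/

open MeasureTheory Filter

namespace Pool.Agent.Results.MP_40e650_an.PositiveEntropy

/-- Shannon entropy `-∑ p log p` (natural logarithm) of the finite partition of `X` into the
level sets `{Q = i}`. -/
noncomputable def shannon {X ι : Type*} [MeasurableSpace X] [Fintype ι] (μ : Measure X)
    (Q : X → ι) : ℝ :=
  ∑ i, Real.negMulLog (μ.real (Q ⁻¹' {i}))

/-- `x ↦ (Q x, Q (τ x), ..., Q (τ^(n-1) x))`; its level sets are the atoms of the joined
partition `⋁_{k < n} τ^{-k} Q`. -/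
def name {X ι : Type*} (τ : X → X) (Q : X → ι) (n : ℕ) : X → Fin n → ι :=
  fun x k => Q (τ^[(k : ℕ)] x)

/-- The Kolmogorov-Sinai entropy of `τ` with respect to `μ`: the supremum, over all finite
measurable partitions `Q`, of the limit (it exists by subadditivity) of `H(⋁_{k<n} τ^{-k}Q) / n`. -/
noncomputable def ksEntropy {X : Type*} [MeasurableSpace X] (μ : Measure X) (τ : X → X) : EReal :=
  ⨆ (r : ℕ) (Q : X → Fin r) (_ : Measurable Q),
    limsup (fun n : ℕ => ((shannon μ (name τ Q n) / n : ℝ) : EReal)) atTop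

variable {X : Type*} [MeasurableSpace X]

/-- `T` is the weighted composition operator `M_φ U_τ` on `L²(X, μ)`: `(T f)(x) = φ(x) f(τ x)`. -/
def IsWeightedComposition (μ : Measure X) (φ : X → ℂ) (τ : X → X)
    (T : Lp ℂ 2 μ →L[ℂ] Lp ℂ 2 μ) : Prop :=
  ∀ f : Lp ℂ 2 μ, (T f : X → ℂ) =ᵐ[μ] fun x => φ x * f (τ x)

/-- `S` is the multiplication operator `M_ψ` on `L²(X, μ)`: `(S f)(x) = ψ(x) f(x)`. -/
def IsMultiplication (μ : Measure X) (ψ : X → ℂ) (S : Lp ℂ 2 μ →L[ℂ] Lp ℂ 2 μ) : Prop :=
  ∀ f : Lp ℂ 2 μ, (S f : X → ℂ) =ᵐ[μ] fun x => ψ x * f x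

/-- Let `τ` be an invertible measure preserving transformation of positive entropy of a probability
space, `φ` a bounded measurable function with `log (1 + |log |φ||)` integrable (with
`Real.log 0 = 0`, so over `{φ ≠ 0}`), `R` a finite measurable partition.
(1) There is a closed subspace `M ≠ 0, L²` invariant under `M_φ U_τ` and under all `M_ψ`, `ψ`
measurable with respect to `R`.
(2) If `H(R) < h(τ)` and `{φ = 0}` is a union of atoms of `R` up to a null set then there is a
bounded idempotent `P ≠ 0, 1` which commutes with `M_φ U_τ` and with all `M_ψ`, `ψ` measurable with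
respect to `R`. -/
theorem result (μ : Measure X) [IsProbabilityMeasure μ] (τ : X ≃ᵐ X)
    (hτ : MeasurePreserving τ μ μ) (hpos : 0 < ksEntropy μ τ)
    (φ : X → ℂ) (hφ : Measurable φ) (hb : ∃ C : ℝ, ∀ᵐ x ∂μ, ‖φ x‖ ≤ C)
    (hlog : Integrable (fun x => Real.log (1 + |Real.log ‖φ x‖|)) μ)
    {r : ℕ} (R : X → Fin r) (hR : Measurable R) :
    (∃ M : Submodule ℂ (Lp ℂ 2 μ), IsClosed (M : Set (Lp ℂ 2 μ)) ∧ M ≠ ⊥ ∧ M ≠ ⊤ ∧
      (∀ T, IsWeightedComposition μ φ τ T → ∀ f ∈ M, T f ∈ M) ∧
      (∀ (ψ : Fin r → ℂ) (S : Lp ℂ 2 μ →L[ℂ] Lp ℂ 2 μ),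
        IsMultiplication μ (fun x => ψ (R x)) S → ∀ f ∈ M, S f ∈ M)) ∧
    ((shannon μ R : EReal) < ksEntropy μ τ →
      (∃ Z : Set (Fin r), ∀ᵐ x ∂μ, φ x = 0 ↔ R x ∈ Z) →
      ∃ P : Lp ℂ 2 μ →L[ℂ] Lp ℂ 2 μ, P ∘L P = P ∧ P ≠ 0 ∧ P ≠ ContinuousLinearMap.id ℂ _ ∧
        (∀ T, IsWeightedComposition μ φ τ T → P ∘L T = T ∘L P) ∧
        (∀ (ψ : Fin r → ℂ) (S : Lp ℂ 2 μ →L[ℂ] Lp ℂ 2 μ),
          IsMultiplication μ (fun x => ψ (R x)) S → P ∘L S = S ∘L P)) :=
  ⟨PosEnt.main_invariant2 τ hτ hpos hφ hb hlog R hR,
    fun hent hZ => PosEnt.main_idempotent2 τ hτ hφ hb hlog R hR hent hZ⟩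

end Pool.Agent.Results.MP_40e650_an.PositiveEntropy
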